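import Mathlib
import Pool.Agent.Results.MP_e22981_co.ExplicitAllDimensions

/-!
# MP_9f93d5_co: the bound `c_L(G) ≤ k` for `Δ(G) ≥ n - k²` fails for all large `k`

For every large `k` there are connected graphs `G` with arbitrarily many vertices and
`Δ(G) ≥ |V(G)| - k²` whose lazy cop number is at least `c k² / (log k)^(3/2)`, so much larger
than `k`. The graphs are hypercubes `Q_m` with `2^m ≤ k² < 2^(m+1)` and pendant vertices attached to
one vertex. The lower bound for hypercubes is the starting file
`Results/MP_e22981_co/ExplicitAllDimensions.lean`.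
-/

namespace Pool.Agent.Results.MP_9f93d5_co.FalseForAllLargeK

open LazyCops Filter

/-- `G` with `L` pendant vertices attached at the vertex `v`. -/
def withLeaves {V : Type} (G : SimpleGraph V) (v : V) (L : ℕ) : SimpleGraph (V ⊕ Fin L) where
  Adj
    | Sum.inl a, Sum.inl b => G.Adj a b
    | Sum.inl a, Sum.inr _ => a = v
    | Sum.inr _, Sum.inl b => b = v
    | Sum.inr _, Sum.inr _ => False
  symm := ⟨by
    rintro (a | i) (b | j) h
    · exact G.adj_symm h
    · exact h
    · exact h
    · exact h⟩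
  loopless := ⟨by
    rintro (a | i) h
    · exact G.irrefl h
    · exact h⟩

/-- the retraction onto `G` -/
def retr {V : Type} (v : V) (L : ℕ) : V ⊕ Fin L → V
  | Sum.inl a => a
  | Sum.inr _ => v

lemma retr_adj {V : Type} (G : SimpleGraph V) (v : V) (L : ℕ) {x y : V ⊕ Fin L}
    (h : (withLeaves G v L).Adj x y) : retr v L x = retr v L y ∨ G.Adj (retr v L x) (retr v L y) := by
  rcases x with a | i <;> rcases y with b | j
  · exact Or.inr h
  · exact Or.inl h
  · exact Or.inl (Eq.symm h)
  · exact absurd h (fun h => h)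

lemma lazyMove_retr {V : Type} (G : SimpleGraph V) (v : V) (L : ℕ) {k : ℕ}
    {c c' : Fin k → V ⊕ Fin L} (h : LazyMove (withLeaves G v L) c c') :
    LazyMove G (retr v L ∘ c) (retr v L ∘ c') := by
  rcases h with rfl | ⟨i, y, hy, rfl⟩
  · exact Or.inl rfl
  · have e : retr v L ∘ Function.update c i y = Function.update (retr v L ∘ c) i (retr v L y) := by
      funext j
      by_cases hj : j = i
      · subst hj; simp
      · simp [Function.update_of_ne hj]
    rcases retr_adj G v L hy with h1 | h1
    · left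
      rw [e, ← h1]
      exact Function.update_eq_self i (retr v L ∘ c)
    · exact Or.inr ⟨i, retr v L y, h1, e⟩

lemma win_retr {V : Type} (G : SimpleGraph V) (v : V) (L : ℕ) {k : ℕ}
    {c : Fin k → V ⊕ Fin L} {x : V ⊕ Fin L} (h : CopsWin (withLeaves G v L) c x) :
    ∀ r : V, x = Sum.inl r → CopsWin G (retr v L ∘ c) r := by
  induction h with
  | caught c x i h =>
    rintro r rfl
    exact CopsWin.caught _ _ i (by simp [h, retr])
  | capture c c' x hm i h =>
    rintro r rfl
    exact CopsWin.capture _ _ _ (lazyMove_retr G v L hm) i (by simp [h, retr])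
  | move c c' x hm h ih =>
    rintro r rfl
    refine CopsWin.move _ _ _ (lazyMove_retr G v L hm) (fun r' hr' => ?_)
    refine ih (Sum.inl r') ?_ r' rfl
    rcases hr' with rfl | hr'
    · exact Or.inl rfl
    · exact Or.inr hr'

lemma mem_lazy {V : Type} [Fintype V] (G : SimpleGraph V) : lazyCopNumber G ∈
    {k : ℕ | ∃ c : Fin k → V, ∀ r, CopsWin G c r} := by
  apply Nat.sInf_mem
  refine ⟨Fintype.card V, (Fintype.equivFin V).symm, fun r => ?_⟩
  exact CopsWin.caught _ _ (Fintype.equivFin V r) (by simp)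

lemma lazy_le {V : Type} [Fintype V] (G : SimpleGraph V) (v : V) (L : ℕ) :
    lazyCopNumber G ≤ lazyCopNumber (withLeaves G v L) := by
  obtain ⟨c, hc⟩ := mem_lazy (withLeaves G v L)
  exact Nat.sInf_le ⟨retr v L ∘ c, fun r => win_retr G v L (hc (Sum.inl r)) r rfl⟩

lemma conn_leaves {V : Type} (G : SimpleGraph V) (hG : G.Connected) (v : V) (L : ℕ) :
    (withLeaves G v L).Connected := by
  have hinl : ∀ a b : V, (withLeaves G v L).Reachable (Sum.inl a) (Sum.inl b) := by
    intro a b
    have h := hG.preconnected a b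
    let f : G →g withLeaves G v L := ⟨Sum.inl, fun {_ _} h => h⟩
    exact h.map f
  have hv : ∀ x : V ⊕ Fin L, (withLeaves G v L).Reachable x (Sum.inl v) := by
    rintro (a | i)
    · exact hinl a v
    · exact SimpleGraph.Adj.reachable (show (withLeaves G v L).Adj (Sum.inr i) (Sum.inl v) from rfl)
  have : Nonempty (V ⊕ Fin L) := ⟨Sum.inl v⟩
  exact ⟨fun x y => (hv x).trans (hv y).symm⟩

lemma conn_cube (m : ℕ) : (hypercube m).Connected := by
  have : Nonempty (Fin m → Bool) := ⟨fun _ => false⟩
  refine ⟨?_⟩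
  have key : ∀ (d : ℕ) (x y : Fin m → Bool), hammingDist x y = d → (hypercube m).Reachable x y := by
    intro d
    induction d with
    | zero =>
      intro x y h
      rw [hammingDist_eq_zero] at h
      rw [h]
    | succ d ih =>
      intro x y h
      have hne : x ≠ y := by
        intro e
        rw [e, hammingDist_self] at h
        omega
      obtain ⟨i, hi⟩ := Function.ne_iff.1 hne
      have h1 : hammingDist x (Function.update x i (y i)) = 1 := by
        rw [hammingDist]
        rw [Finset.card_eq_one]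
        refine ⟨i, ?_⟩
        ext j
        simp only [Finset.mem_filter, Finset.mem_univ, true_and, Finset.mem_singleton]
        constructor
        · intro hj
          by_contra hji
          exact hj (Function.update_of_ne hji _ _).symm
        · rintro rfl
          simpa using hi
      have h2 : hammingDist (Function.update x i (y i)) y = d := by
        have e : (Finset.univ.filter (fun j => x j ≠ y j)) =
            insert i (Finset.univ.filter (fun j => Function.update x i (y i) j ≠ y j)) := by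
          ext j
          simp only [Finset.mem_filter, Finset.mem_univ, true_and, Finset.mem_insert]
          by_cases hji : j = i
          · subst hji; simpa using hi
          · simp [hji]
        have hn : i ∉ Finset.univ.filter (fun j => Function.update x i (y i) j ≠ y j) := by simp
        have h3 : hammingDist x y = hammingDist (Function.update x i (y i)) y + 1 := by
          rw [hammingDist, hammingDist, e, Finset.card_insert_of_notMem hn]
        omega
      exact (SimpleGraph.Adj.reachable (show (hypercube m).Adj x (Function.update x i (y i)) from h1)).trans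
        (ih _ _ h2)
  exact fun x y => key _ x y rfl

/-- **The bound of Q1 fails for all large `k`, for graphs with arbitrarily many vertices, and by a
factor which is nearly `k`.** -/
theorem result : ∃ c : ℝ, 0 < c ∧ ∀ᶠ k : ℕ in atTop, ∀ N : ℕ,
    ∃ (V : Type) (_ : Fintype V) (G : SimpleGraph V) (_ : DecidableRel G.Adj), G.Connected ∧
      N ≤ Fintype.card V ∧ Fintype.card V ≤ G.maxDegree + k ^ 2 ∧
      k + 1 ≤ lazyCopNumber G ∧
      c * (k : ℝ) ^ 2 / Real.log k ^ (3 / 2 : ℝ) ≤ (lazyCopNumber G : ℝ) := by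
  classical
  obtain ⟨c0, hc0, hlow⟩ := Pool.Agent.Results.MP_e22981_co.ExplicitAllDimensions.lower_real
  set c : ℝ := c0 / (2 * (3 : ℝ) ^ (3 / 2 : ℝ)) with hc
  have h3pos : (0 : ℝ) < (3 : ℝ) ^ (3 / 2 : ℝ) := by positivity
  have hcpos : 0 < c := by positivity
  refine ⟨c, hcpos, ?_⟩
  have hlo := isLittleO_log_rpow_rpow_atTop (3 / 2 : ℝ) (s := 1) one_pos
  have hev : ∀ᶠ x : ℝ in atTop, ‖Real.log x ^ (3 / 2 : ℝ)‖ ≤ (c / 2) * ‖x ^ (1 : ℝ)‖ :=
    hlo.def (by positivity)
  have hev2 := (tendsto_natCast_atTop_atTop (R := ℝ)).eventually hev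
  filter_upwards [hev2, eventually_ge_atTop 3] with k hk hk3 N
  have hk1 : (1 : ℝ) < k := by exact_mod_cast (by omega : 1 < k)
  have hkpos : (0 : ℝ) < k := by linarith
  have hlogpos : 0 < Real.log k := Real.log_pos hk1
  have hlp : 0 < Real.log k ^ (3 / 2 : ℝ) := Real.rpow_pos_of_pos hlogpos _
  set m := Nat.log 2 (k ^ 2) with hm
  have hk2 : k ^ 2 ≠ 0 := by positivity
  have hm1 : 2 ^ m ≤ k ^ 2 := Nat.pow_log_le_self 2 hk2
  have hm2 : k ^ 2 < 2 ^ (m + 1) := Nat.lt_pow_succ_log_self (by norm_num) _
  have hmpos : 1 ≤ m := by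
    by_contra hcon
    have h0 : m = 0 := by omega
    rw [h0] at hm2
    have h9 : 3 ^ 2 ≤ k ^ 2 := Nat.pow_le_pow_left hk3 2
    norm_num at hm2
    omega
  have hmlow := hlow m hmpos
  have hm1' : (2 : ℝ) ^ m ≤ (k : ℝ) ^ 2 := by exact_mod_cast hm1
  have hm2' : (k : ℝ) ^ 2 ≤ 2 * (2 : ℝ) ^ m := by
    have : ((k ^ 2 : ℕ) : ℝ) ≤ ((2 ^ (m + 1) : ℕ) : ℝ) := by exact_mod_cast hm2.le
    push_cast at this
    have h2 : (2 : ℝ) ^ (m + 1) = 2 * 2 ^ m := by ring
    linarith
  have hmR : (0 : ℝ) < m := by exact_mod_cast hmpos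
  have hmlog : (m : ℝ) ≤ 3 * Real.log k := by
    have h1 : (m : ℝ) * Real.log 2 ≤ 2 * Real.log k := by
      have := Real.log_le_log (by positivity) hm1'
      rw [Real.log_pow, Real.log_pow] at this
      exact_mod_cast this
    have h2 := Real.log_two_gt_d9
    nlinarith
  have hbase : c * (k : ℝ) ^ 2 / Real.log k ^ (3 / 2 : ℝ) ≤ (lazyCopNumber (hypercube m) : ℝ) := by
    refine le_trans ?_ hmlow
    have hmp : (0 : ℝ) < (m : ℝ) ^ (3 / 2 : ℝ) := Real.rpow_pos_of_pos hmR _
    have h1 : (m : ℝ) ^ (3 / 2 : ℝ) ≤ (3 : ℝ) ^ (3 / 2 : ℝ) * Real.log k ^ (3 / 2 : ℝ) := by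
      rw [← Real.mul_rpow (by norm_num) hlogpos.le]
      exact Real.rpow_le_rpow hmR.le hmlog (by norm_num)
    rw [← mul_div_assoc, div_le_div_iff₀ hlp hmp]
    have h2 : c * (k : ℝ) ^ 2 * (m : ℝ) ^ (3 / 2 : ℝ) ≤
        c * (2 * (2 : ℝ) ^ m) * ((3 : ℝ) ^ (3 / 2 : ℝ) * Real.log k ^ (3 / 2 : ℝ)) := by
      gcongr
    refine h2.trans (le_of_eq ?_)
    rw [hc]
    field_simp
  have hlazy := lazy_le (hypercube m) (fun _ => false) N
  have hlazy' : (lazyCopNumber (hypercube m) : ℝ) ≤
      (lazyCopNumber (withLeaves (hypercube m) (fun _ => false) N) : ℝ) := by exact_mod_cast hlazy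
  refine ⟨(Fin m → Bool) ⊕ Fin N, inferInstance, withLeaves (hypercube m) (fun _ => false) N,
    Classical.decRel _, conn_leaves _ (conn_cube m) _ _, ?_, ?_, ?_, hbase.trans hlazy'⟩
  · simp
  · have hdeg : N ≤ @SimpleGraph.maxDegree _ (withLeaves (hypercube m) (fun _ => false) N) _
        (Classical.decRel _) := by
      refine le_trans ?_ (SimpleGraph.degree_le_maxDegree _ (Sum.inl (fun _ => false)))
      rw [← SimpleGraph.card_neighborFinset_eq_degree]
      calc N = (Finset.univ.map ⟨(Sum.inr : Fin N → (Fin m → Bool) ⊕ Fin N), Sum.inr_injective⟩).card := by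
            simp
        _ ≤ _ := by
            apply Finset.card_le_card
            intro x hx
            simp only [Finset.mem_map, Finset.mem_univ, true_and, Function.Embedding.coeFn_mk] at hx
            obtain ⟨i, rfl⟩ := hx
            rw [SimpleGraph.mem_neighborFinset]
            exact rfl
    have hcard : Fintype.card ((Fin m → Bool) ⊕ Fin N) = 2 ^ m + N := by simp
    rw [hcard]
    omega
  · have h1 : (k : ℝ) + 1 ≤ c * (k : ℝ) ^ 2 / Real.log k ^ (3 / 2 : ℝ) := by
      rw [le_div_iff₀ hlp]
      rw [Real.norm_of_nonneg hlp.le, Real.rpow_one, Real.norm_of_nonneg hkpos.le] at hk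
      have h2 : ((k : ℝ) + 1) * Real.log k ^ (3 / 2 : ℝ) ≤ ((k : ℝ) + 1) * (c / 2 * k) :=
        mul_le_mul_of_nonneg_left hk (by positivity)
      refine h2.trans ?_
      have h3 : (k : ℝ) + 1 ≤ 2 * k := by linarith
      calc ((k : ℝ) + 1) * (c / 2 * k) ≤ (2 * k) * (c / 2 * k) := by gcongr
        _ = c * k ^ 2 := by ring
    have h2 := h1.trans (hbase.trans hlazy')
    exact_mod_cast h2

end Pool.Agent.Results.MP_9f93d5_co.FalseForAllLargeK
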